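import Mathlib
import Pool.Agent.Y668.Fin
import Pool.Agent.W307.RS.MainQ
import Pool.Agent.W261.RT.Iso
import Pool.Agent.Y695.Mw

/-!
# Ranks over multiquadratic fields: from the rational numbers to the field
-/

set_option autoImplicit false

namespace Pool.Agent.Y668.MQ

open Finset Polynomial
open Pool.Agent.W307.RT (Sh)
open Pool.Agent.W307.RS (ShK)

/-- Translation of the point of order two to the origin. -/
lemma iso_sh {A B e : ℤ} (he : e ^ 3 + A * e + B = 0) :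
    Nonempty ((Sh A B).toAffine.Point ≃+
      (Pool.Agent.Y668.W2 (3 * e) (3 * e ^ 2 + A)).toAffine.Point) := by
  obtain ⟨φ⟩ := Pool.Agent.W261.RT.iso 0 (A : ℚ) (B : ℚ) (e : ℚ) 1 one_ne_zero
  have h : (⟨0, (0 + 3 * (e : ℚ)) / 1 ^ 2, 0,
      ((A : ℚ) + 2 * (e : ℚ) * 0 + 3 * (e : ℚ) ^ 2) / 1 ^ 4,
      ((B : ℚ) + (e : ℚ) * (A : ℚ) + (e : ℚ) ^ 2 * 0 + (e : ℚ) ^ 3) / 1 ^ 6⟩ :
      WeierstrassCurve ℚ) =
      Pool.Agent.Y668.W2 (3 * e) (3 * e ^ 2 + A) := by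
    unfold Pool.Agent.Y668.W2
    have heq : (e : ℚ) ^ 3 + A * e + B = 0 := by exact_mod_cast he
    rw [WeierstrassCurve.mk.injEq]
    refine ⟨rfl, ?_, rfl, ?_, ?_⟩
    · push_cast
      ring
    · push_cast
      ring
    · have : (B : ℚ) = -(e : ℚ) ^ 3 - A * e := by linarith
      rw [this]
      ring
  rw [h] at φ
  exact ⟨φ⟩

/-- Mordell-Weil for the curves with a rational point of order two. -/
theorem fin_sh {A B e : ℤ} (he : e ^ 3 + A * e + B = 0) (hΔ : 4 * A ^ 3 + 27 * B ^ 2 ≠ 0) :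
    Module.Finite ℤ (Sh A B).toAffine.Point := by
  classical
  obtain ⟨φ⟩ := iso_sh he
  have hfac : 4 * A ^ 3 + 27 * B ^ 2 = -((3 * e ^ 2 + A) ^ 2 * (-3 * e ^ 2 - 4 * A)) := by
    have h1 : B = -e ^ 3 - A * e := by linarith
    rw [h1]
    ring
  have hb : 3 * e ^ 2 + A ≠ 0 := by
    intro h
    apply hΔ
    rw [hfac, h]
    ring
  have hd : (3 * e) ^ 2 - 4 * (3 * e ^ 2 + A) ≠ 0 := by
    intro h
    apply hΔ
    rw [hfac]
    have : -3 * e ^ 2 - 4 * A = 0 := by linarith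
    rw [this]
    ring
  have hT : Pool.Agent.Y695.IsT (Pool.Agent.Y668.W2 (3 * e) (3 * e ^ 2 + A)).toAffine
      (((3 * e : ℤ)) : ℚ) (((3 * e ^ 2 + A : ℤ)) : ℚ) :=
    { a1 := rfl
      a2 := rfl
      a3 := rfl
      a4 := rfl
      a6 := rfl
      two := two_ne_zero
      nb := by exact_mod_cast hb
      nd := by exact_mod_cast hd }
  have h1 := Pool.Agent.Y695.fg_points hT
  rw [← Module.Finite.iff_addGroup_fg] at h1
  have h2 : Module.Finite ℤ (Pool.Agent.Y668.W2 (3 * e) (3 * e ^ 2 + A)).toAffine.Point := by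
    convert h1
  exact Module.Finite.equiv φ.symm.toIntLinearEquiv

/-- A product of powers is at most the sum of the powers of the factors. -/
lemma pow_sum_le {ι : Type} [Fintype ι] [Nonempty ι] (a : ι → ℕ) (n : ℕ) (hn : Fintype.card ι = n)
    (b s : ℕ) (hb : b ≤ ∑ i, a i) : ((2 : ℝ) ^ b) ^ s ≤ ∑ i, ((2 : ℝ) ^ a i) ^ (n * s) := by
  obtain ⟨j, -, hj⟩ := Finset.exists_max_image (univ : Finset ι) a univ_nonempty
  have h1 : b ≤ n * a j := by
    refine hb.trans ?_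
    refine (sum_le_card_nsmul univ a (a j) fun i hi => hj i hi).trans ?_
    rw [card_univ, hn, smul_eq_mul]
  calc ((2 : ℝ) ^ b) ^ s ≤ ((2 : ℝ) ^ (n * a j)) ^ s :=
        pow_le_pow_left₀ (by positivity) (pow_le_pow_right₀ (by norm_num) h1) s
    _ = ((2 : ℝ) ^ a j) ^ (n * s) := by
        rw [← pow_mul, ← pow_mul]
        congr 1
        ring
    _ ≤ _ := single_le_sum (f := fun i => ((2 : ℝ) ^ a i) ^ (n * s)) (fun i _ => by positivity)
        (mem_univ j)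

/-- the field `F` is generated over `ℚ` by square roots of the integers `d i` -/
def Gen (F : Type) [Field F] [NumberField F] {s : ℕ} (d : Fin s → ℤ) : Prop :=
  ∃ x : Fin s → F, (∀ i, x i ^ 2 = (d i : F)) ∧
    IntermediateField.adjoin ℚ (Set.range x) = ⊤

open Classical in
/-- The rank over one multiquadratic field. -/
theorem mq_one (F : Type) [Field F] [NumberField F] (r : ℕ) (d : Fin r → ℤ) (hd : ∀ i, d i ≠ 0)
    (hF : Gen F d) (A B e : ℤ) (he : e ^ 3 + A * e + B = 0) (hΔ : 4 * A ^ 3 + 27 * B ^ 2 ≠ 0) :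
    Module.finrank ℤ (ShK (A : F) (B : F)).toAffine.Point ≤
      ∑ T : Finset (Fin r), Module.finrank ℤ (Sh ((∏ i ∈ T, d i) ^ 2 * A)
        ((∏ i ∈ T, d i) ^ 3 * B)).toAffine.Point := by
  obtain ⟨x, hx, hgen⟩ := hF
  have h1 := Pool.Agent.W307.RS.mq2 F r x d hx hd hgen A B hΔ
  have hdT : ∀ T : Finset (Fin r), ∏ i ∈ T, d i ≠ 0 := fun T =>
    prod_ne_zero_iff.2 fun i _ => hd i
  have hfin : ∀ T : Finset (Fin r), Module.Finite ℤ
      (Sh ((∏ i ∈ T, d i) ^ 2 * A) ((∏ i ∈ T, d i) ^ 3 * B)).toAffine.Point := by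
    intro T
    refine fin_sh (e := (∏ i ∈ T, d i) * e) ?_ ?_
    · linear_combination (∏ i ∈ T, d i) ^ 3 * he
    · intro h5
      have h6 : (∏ i ∈ T, d i) ^ 6 * (4 * A ^ 3 + 27 * B ^ 2) = 0 := by
        linear_combination h5
      exact hΔ ((mul_eq_zero.1 h6).resolve_left (pow_ne_zero 6 (hdT T)))
  have h2 : ∀ T : Finset (Fin r), Module.rank ℤ
      (Sh ((∏ i ∈ T, d i) ^ 2 * A) ((∏ i ∈ T, d i) ^ 3 * B)).toAffine.Point =
      ((Module.finrank ℤ (Sh ((∏ i ∈ T, d i) ^ 2 * A)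
        ((∏ i ∈ T, d i) ^ 3 * B)).toAffine.Point : ℕ) : Cardinal) := by
    intro T
    have := hfin T
    exact (Module.finrank_eq_rank ℤ _).symm
  rw [sum_congr rfl fun T _ => h2 T, ← Nat.cast_sum] at h1
  exact Module.finrank_le_of_rank_le h1

open Classical in
/-- From the twists over `ℚ` to the varying multiquadratic fields. -/
theorem mq_sum (r : ℕ) (d : Fin r → ℤ → ℤ) (A B e : ℤ → ℤ) (P : ℤ → Prop)
    (hd : ∀ t, P t → ∀ i, d i t ≠ 0)
    (he : ∀ t, P t → e t ^ 3 + A t * e t + B t = 0)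
    (hΔ : ∀ t, P t → 4 * A t ^ 3 + 27 * B t ^ 2 ≠ 0) (s L : ℕ)
    (h : ∀ T : Finset (Fin r), ∃ C : ℝ, ∀ (N : ℤ) (M : ℕ), 1 ≤ M → |N| ≤ (M : ℤ) ^ L →
      ∑ t ∈ (Ioc N (N + M)).filter P, ((2 : ℝ) ^ Module.finrank ℤ
        (Sh ((∏ i ∈ T, d i t) ^ 2 * A t) ((∏ i ∈ T, d i t) ^ 3 * B t)).toAffine.Point) ^
          (2 ^ r * s) ≤ C * M) :
    ∃ C : ℝ, ∀ (N : ℤ) (M : ℕ), 1 ≤ M → |N| ≤ (M : ℤ) ^ L →
      ∀ (F : ℤ → Type) [∀ t, Field (F t)] [∀ t, NumberField (F t)],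
      (∀ t ∈ (Ioc N (N + M)).filter P, Gen (F t) (fun i => d i t)) →
      ∑ t ∈ (Ioc N (N + M)).filter P,
        ((2 : ℝ) ^ Module.finrank ℤ (ShK (A t : F t) (B t : F t)).toAffine.Point) ^ s ≤ C * M := by
  choose C hC using h
  refine ⟨∑ T, C T, fun N M hM hN F _ _ hF => ?_⟩
  rw [sum_mul]
  refine le_trans ?_ (sum_le_sum fun T _ => hC T N M hM hN)
  rw [sum_comm]
  refine sum_le_sum fun t ht => ?_
  have hPt : P t := (mem_filter.1 ht).2
  have h3 := mq_one (F t) r (fun i => d i t) (hd t hPt) (hF t ht) (A t) (B t) (e t) (he t hPt)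
    (hΔ t hPt)
  exact pow_sum_le _ (2 ^ r) (by rw [Fintype.card_finset, Fintype.card_fin]) _ s h3

end Pool.Agent.Y668.MQ
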